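import Pool.Agent.P8H62.PC.Main

/-!
# Pure minimal injective coresolutions do not force Auslander regularity

Over every field `K` there is a finite dimensional `K`-algebra of finite global dimension whose
minimal injective coresolution is pure (each nonzero term `I i` is pure of grade `i`), but in which
some term `I i` has projective dimension larger than `i`, so the algebra is not Auslander regular.
The algebra is a 38-dimensional quiver algebra with ten vertices; the term `I 1` has projective
dimension at least two.
-/

namespace Pool.Agent.Results.MP_357124_al.PureNotAuslanderRegular

universe u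

open CategoryTheory Pool.Agent.P8H62.PC

theorem result (K : Type u) [Field K] :
    ∃ (A : Type u) (_ : Ring A) (_ : Algebra K A), Module.Finite K A ∧
      (∃ n : ℕ, ∀ M : ModuleCat.{u} A, projectiveDimension M ≤ n) ∧
      ∃ (C : MinInjCores A) (d : ℕ),
        (∀ i, d < i → Subsingleton (C.I i)) ∧
        (∀ i ≤ d, Nontrivial (C.I i) ∧ IsPure A (C.I i) ∧ grade A (C.I i) = i) ∧
        ∃ i : ℕ, ¬ projectiveDimension (ModuleCat.of A (C.I i)) ≤ i :=
  main K

end Pool.Agent.Results.MP_357124_al.PureNotAuslanderRegular
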